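import Pool.Agent.Lib_helper34.BB.Defs

/-! Block HOMOG: homogeneity of the half space model. -/

open MeasureTheory ProbabilityTheory Set Metric Function
open scoped ENNReal NNReal

namespace Pool.Agent.BB

theorem homog_measurableSet (n : ℕ) :
    MeasurableSet {z : EuclideanSpace ℝ (Fin (n + 1)) | 0 < z 0} := by
  refine measurableSet_lt measurable_const ?_
  fun_prop

theorem homog_emb (n : ℕ) : MeasurableEmbedding
    (Subtype.val : {z : EuclideanSpace ℝ (Fin (n + 1)) // 0 < z 0} →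
      EuclideanSpace ℝ (Fin (n + 1))) :=
  MeasurableEmbedding.subtype_coe (homog_measurableSet n)

/-- the density -/
noncomputable def homogF (κ : ℝ) (n : ℕ) (z : EuclideanSpace ℝ (Fin (n + 1))) : ℝ≥0∞ :=
  ENNReal.ofReal ((√κ * z 0) ^ (n + 1))⁻¹

theorem homogF_meas (κ : ℝ) (n : ℕ) : Measurable (homogF κ n) := by
  unfold homogF
  fun_prop

theorem homog_sub_apply (κ : ℝ) (n : ℕ) (A : Set {z : EuclideanSpace ℝ (Fin (n + 1)) // 0 < z 0})
    (hA : MeasurableSet A) :
    ((Measure.comap (Subtype.val : {z : EuclideanSpace ℝ (Fin (n + 1)) // 0 < z 0} →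
      EuclideanSpace ℝ (Fin (n + 1))) volume).withDensity (fun z => homogF κ n z.1)) A =
      ∫⁻ z in (Subtype.val '' A), homogF κ n z := by
  rw [withDensity_apply _ hA, ← lintegral_indicator hA]
  have h2 : (Set.indicator A
      (fun z => homogF κ n z.1)) = fun z => (Set.indicator (Subtype.val '' A) (homogF κ n)) z.1 := by
    funext z
    by_cases hz : z ∈ A
    · rw [Set.indicator_of_mem hz, Set.indicator_of_mem (Set.mem_image_of_mem _ hz)]
    · rw [Set.indicator_of_notMem hz, Set.indicator_of_notMem]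
      rintro ⟨z', hz', h⟩
      exact hz (Subtype.ext h ▸ hz')
  rw [h2, ← (homog_emb n).lintegral_map, (homog_emb n).map_comap,
    lintegral_indicator ((homog_emb n).measurableSet_image.2 hA),
    Measure.restrict_restrict ((homog_emb n).measurableSet_image.2 hA),
    Set.inter_eq_left.2 (Set.image_subset_range _ _)]

/-- the image in the Euclidean space -/
def homogI {n : ℕ} (A : Set (HSpace n)) : Set (EuclideanSpace ℝ (Fin (n + 1))) :=
  {z | ∃ h : 0 < z 0, (⟨z, h⟩ : HSpace n) ∈ A}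

theorem homogI_image (n : ℕ) (A : Set {z : EuclideanSpace ℝ (Fin (n + 1)) // 0 < z 0}) :
    homogI (A : Set (HSpace n)) = Subtype.val '' A := by
  ext z
  constructor
  · rintro ⟨h, hz⟩
    exact ⟨⟨z, h⟩, hz, rfl⟩
  · rintro ⟨z', hz', rfl⟩
    exact ⟨z'.2, hz'⟩

theorem homogI_meas (n : ℕ) (A : Set (HSpace n)) (hA : MeasurableSet A) :
    MeasurableSet (homogI A) := by
  have hA' : @MeasurableSet {z : EuclideanSpace ℝ (Fin (n + 1)) // 0 < z 0} _ A := hA
  have h1 := (homog_emb n).measurableSet_image.2 hA'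
  have h2 := homogI_image n A
  exact h2 ▸ h1

theorem homog_hvol_apply (κ : ℝ) (n : ℕ) (A : Set (HSpace n)) (hA : MeasurableSet A) :
    hvol κ n A = ∫⁻ z in homogI A, homogF κ n z := by
  have hA' : @MeasurableSet {z : EuclideanSpace ℝ (Fin (n + 1)) // 0 < z 0} _ A := hA
  have h1 := homog_sub_apply κ n A hA'
  have h2 := homogI_image n A
  rw [h2]
  exact h1

theorem homog_map (n : ℕ) (r : ℝ) (hr : 0 < r) (b : EuclideanSpace ℝ (Fin (n + 1))) :
    Measure.map (fun z : EuclideanSpace ℝ (Fin (n + 1)) => r • z + b) volume =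
      ENNReal.ofReal ((r ^ (n + 1))⁻¹) • volume := by
  have h1 : (fun z : EuclideanSpace ℝ (Fin (n + 1)) => r • z + b) =
      (fun z => z + b) ∘ (fun z => r • z) := rfl
  rw [h1, ← Measure.map_map (measurable_add_const b) (measurable_const_smul r),
    Measure.map_addHaar_smul volume hr.ne', Measure.map_smul]
  rw [(measurePreserving_add_right volume b).map_eq]
  congr 2
  rw [finrank_euclideanSpace, Fintype.card_fin, abs_of_pos (by positivity)]

theorem homog_lintegral (n : ℕ) (r : ℝ) (hr : 0 < r) (b : EuclideanSpace ℝ (Fin (n + 1)))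
    (hb : b 0 = 0) (B : Set (EuclideanSpace ℝ (Fin (n + 1)))) (hB : MeasurableSet B) :
    ∫⁻ z in (fun z : EuclideanSpace ℝ (Fin (n + 1)) => r • z + b) ⁻¹' B, homogF 1 n z =
      ∫⁻ z in B, homogF 1 n z := by
  have hG : Measurable (fun z : EuclideanSpace ℝ (Fin (n + 1)) => r • z + b) := by fun_prop
  have h1 : ∫⁻ z in B, homogF 1 n z ∂(Measure.map
      (fun z : EuclideanSpace ℝ (Fin (n + 1)) => r • z + b) volume) =
      ENNReal.ofReal ((r ^ (n + 1))⁻¹) * ∫⁻ z in B, homogF 1 n z := by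
    rw [homog_map n r hr b, Measure.restrict_smul, lintegral_smul_measure, smul_eq_mul]
  have h2 : ∫⁻ z in B, homogF 1 n z ∂(Measure.map
      (fun z : EuclideanSpace ℝ (Fin (n + 1)) => r • z + b) volume) =
      ENNReal.ofReal ((r ^ (n + 1))⁻¹) *
      ∫⁻ z in (fun z : EuclideanSpace ℝ (Fin (n + 1)) => r • z + b) ⁻¹' B, homogF 1 n z := by
    rw [setLIntegral_map hB (homogF_meas 1 n) hG, ← lintegral_const_mul _ (homogF_meas 1 n)]
    refine lintegral_congr fun z => ?_
    unfold homogF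
    rw [← ENNReal.ofReal_mul (by positivity)]
    congr 1
    simp only [PiLp.add_apply, PiLp.smul_apply, smul_eq_mul, hb, add_zero, Real.sqrt_one, one_mul]
    rw [mul_pow, mul_inv]
  rw [h2] at h1
  have h3 : ENNReal.ofReal ((r ^ (n + 1))⁻¹) ≠ 0 := by
    rw [ENNReal.ofReal_ne_zero_iff]; positivity
  exact (ENNReal.mul_right_inj h3 ENNReal.ofReal_ne_top).1 h1

/-- the dilation / translation -/
noncomputable def homogG (n : ℕ) (r : ℝ) (hr : 0 < r) (b : EuclideanSpace ℝ (Fin (n + 1)))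
    (hb : b 0 = 0) : Equiv.Perm (HSpace n) where
  toFun z := ⟨r • z.1 + b, by
    simp only [PiLp.add_apply, PiLp.smul_apply, smul_eq_mul, hb, add_zero]
    exact mul_pos hr z.2⟩
  invFun z := ⟨r⁻¹ • (z.1 - b), by
    simp only [PiLp.sub_apply, PiLp.smul_apply, smul_eq_mul, hb, sub_zero]
    exact mul_pos (inv_pos.2 hr) z.2⟩
  left_inv z := by
    apply Subtype.ext
    change r⁻¹ • (r • z.1 + b - b) = z.1
    rw [add_sub_cancel_right, smul_smul, inv_mul_cancel₀ hr.ne', one_smul]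
  right_inv z := by
    apply Subtype.ext
    change r • (r⁻¹ • (z.1 - b)) + b = z.1
    rw [smul_smul, mul_inv_cancel₀ hr.ne', one_smul, sub_add_cancel]

theorem homogG_val (n : ℕ) (r : ℝ) (hr : 0 < r) (b : EuclideanSpace ℝ (Fin (n + 1)))
    (hb : b 0 = 0) (z : HSpace n) : (homogG n r hr b hb z).1 = r • z.1 + b := rfl

theorem homogG_meas (n : ℕ) (r : ℝ) (hr : 0 < r) (b : EuclideanSpace ℝ (Fin (n + 1)))
    (hb : b 0 = 0) : Measurable (homogG n r hr b hb) := by
  have h : Measurable (fun z : {z : EuclideanSpace ℝ (Fin (n + 1)) // 0 < z 0} =>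
      (homogG n r hr b hb z).1) := by
    have : (fun z : {z : EuclideanSpace ℝ (Fin (n + 1)) // 0 < z 0} =>
      (homogG n r hr b hb z).1) = fun z => r • z.1 + b := rfl
    rw [this]
    fun_prop
  exact (homog_emb n).measurable_comp_iff.1 h

theorem homogG_mp (n : ℕ) (r : ℝ) (hr : 0 < r) (b : EuclideanSpace ℝ (Fin (n + 1)))
    (hb : b 0 = 0) : MeasurePreserving (homogG n r hr b hb) (hvol 1 n) (hvol 1 n) := by
  refine ⟨homogG_meas n r hr b hb, ?_⟩
  ext A hA
  rw [Measure.map_apply (homogG_meas n r hr b hb) hA,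
    homog_hvol_apply 1 n _ ((homogG_meas n r hr b hb) hA), homog_hvol_apply 1 n _ hA]
  have h1 : homogI ((homogG n r hr b hb) ⁻¹' A) =
      (fun z : EuclideanSpace ℝ (Fin (n + 1)) => r • z + b) ⁻¹' (homogI A) := by
    ext z
    constructor
    · rintro ⟨h, hz⟩
      exact ⟨(homogG n r hr b hb ⟨z, h⟩).2, hz⟩
    · rintro ⟨h, hz⟩
      have h2 : 0 < z 0 := by
        simp only [PiLp.add_apply, PiLp.smul_apply, smul_eq_mul, hb, add_zero] at h
        exact pos_of_mul_pos_right h hr.le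
      exact ⟨h2, hz⟩
  rw [h1, homog_lintegral n r hr b hb _ (homogI_meas n A hA)]

theorem homogG_dist (n : ℕ) (r : ℝ) (hr : 0 < r) (b : EuclideanSpace ℝ (Fin (n + 1)))
    (hb : b 0 = 0) (κ : ℝ) (z w : HSpace n) :
    hdist κ (homogG n r hr b hb z) (homogG n r hr b hb w) = hdist κ z w := by
  unfold hdist
  rw [homogG_val, homogG_val]
  simp only [PiLp.add_apply, PiLp.smul_apply, smul_eq_mul, hb, add_zero]
  rw [dist_add_right, dist_smul₀, Real.norm_of_nonneg hr.le]
  have h1 : r * z.1 0 * (r * w.1 0) = r ^ 2 * (z.1 0 * w.1 0) := by ring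
  rw [h1, Real.sqrt_mul (sq_nonneg r), Real.sqrt_sq hr.le]
  have h2 : r * dist z.1 w.1 / (2 * (r * √(z.1 0 * w.1 0))) =
      dist z.1 w.1 / (2 * √(z.1 0 * w.1 0)) := by
    rw [show 2 * (r * √(z.1 0 * w.1 0)) = r * (2 * √(z.1 0 * w.1 0)) by ring,
      mul_div_mul_left _ _ hr.ne']
  rw [h2]

theorem homog_exists (n : ℕ) (x y : HSpace n) : ∃ (r : ℝ) (hr : 0 < r)
    (b : EuclideanSpace ℝ (Fin (n + 1))) (hb : b 0 = 0), homogG n r hr b hb x = y := by
  have hx : 0 < x.1 0 := x.2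
  have hy : 0 < y.1 0 := y.2
  refine ⟨y.1 0 / x.1 0, div_pos hy hx, y.1 - (y.1 0 / x.1 0) • x.1, ?_, ?_⟩
  · simp only [PiLp.sub_apply, PiLp.smul_apply, smul_eq_mul]
    rw [div_mul_cancel₀ _ hx.ne', sub_self]
  · apply Subtype.ext
    rw [homogG_val]
    abel

/-- HYP (b): homogeneity -/
theorem hyp_homog_proof (n : ℕ) (x y : HSpace n) : ∃ g : Equiv.Perm (HSpace n), g x = y ∧
    (∀ z w, hdist 1 (g z) (g w) = hdist 1 z w) ∧
    MeasurePreserving g (hvol 1 n) (hvol 1 n) := by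
  obtain ⟨r, hr, b, hb, h⟩ := homog_exists n x y
  exact ⟨homogG n r hr b hb, h, homogG_dist n r hr b hb 1, homogG_mp n r hr b hb⟩

end Pool.Agent.BB
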