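import Pool.Agent.Lib_helper22.BB.HOMOG

/-! Block NICE: balls have finite volume and annuli are small. -/

open MeasureTheory ProbabilityTheory Set Metric Function
open scoped ENNReal NNReal Topology

namespace Pool.Agent.BB

theorem nice_scale (κ : ℝ) (n : ℕ) (A : Set (HSpace n)) (hA : MeasurableSet A) :
    hvol κ n A = ENNReal.ofReal ((√κ ^ (n + 1))⁻¹) * hvol 1 n A := by
  rw [homog_hvol_apply κ n A hA, homog_hvol_apply 1 n A hA,
    ← lintegral_const_mul _ (homogF_meas 1 n)]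
  refine lintegral_congr fun z => ?_
  unfold homogF
  rw [← ENNReal.ofReal_mul (by positivity)]
  congr 1
  rw [Real.sqrt_one, one_mul, mul_pow, mul_inv]

theorem nice_meas_dist {n : ℕ} (x : HSpace n) : Measurable (fun y : HSpace n => hdist 1 x y) := by
  have h1 : Measurable (fun y : {z : EuclideanSpace ℝ (Fin (n + 1)) // 0 < z 0} => y.1) :=
    measurable_subtype_coe
  have h2 : Measurable (fun y : HSpace n => y.1) := h1
  have h3 : Measurable (fun y : EuclideanSpace ℝ (Fin (n + 1)) =>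
      2 * Real.arsinh (dist x.1 y / (2 * √(x.1 0 * y 0))) / √1) := by
    have h4 : Measurable Real.arsinh := Real.continuous_arsinh.measurable
    have h5 : Measurable (fun y : EuclideanSpace ℝ (Fin (n + 1)) =>
      dist x.1 y / (2 * √(x.1 0 * y 0))) := by fun_prop
    exact ((h4.comp h5).const_mul 2).div_const _
  exact h3.comp h2

theorem nice_dist_nonneg {n : ℕ} (x y : HSpace n) : 0 ≤ hdist 1 x y := by
  unfold hdist
  have : 0 ≤ Real.arsinh (dist x.1 y.1 / (2 * √(x.1 0 * y.1 0))) :=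
    Real.arsinh_nonneg_iff.2 (by positivity)
  positivity

theorem nice_sinh {n : ℕ} (x y : HSpace n) :
    dist x.1 y.1 = 2 * Real.sinh (hdist 1 x y / 2) * √(x.1 0 * y.1 0) := by
  have hx : 0 < x.1 0 := x.2
  have hy : 0 < y.1 0 := y.2
  have h1 : 0 < √(x.1 0 * y.1 0) := Real.sqrt_pos.2 (mul_pos hx hy)
  unfold hdist
  rw [Real.sqrt_one, div_one, mul_div_cancel_left₀ _ (two_ne_zero), Real.sinh_arsinh]
  field_simp

theorem nice_ball_incl {n : ℕ} (x : HSpace n) (r : ℝ) : ∃ δ > 0, ∃ R : ℝ, ∀ y : HSpace n,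
    hdist 1 x y ≤ r → δ ≤ y.1 0 ∧ dist y.1 x.1 ≤ R := by
  have hx : 0 < x.1 0 := x.2
  refine ⟨x.1 0 / (2 * (1 + 2 * Real.sinh (r / 2) ^ 2)), by positivity,
    x.1 0 * (1 + 4 * Real.sinh (r / 2) ^ 2), ?_⟩
  intro y hy
  have hy0 : 0 < y.1 0 := y.2
  have hd := nice_sinh x y
  have h0 := nice_dist_nonneg x y
  have hs0 : 0 ≤ Real.sinh (hdist 1 x y / 2) := Real.sinh_nonneg_iff.2 (by linarith)
  have hs : Real.sinh (hdist 1 x y / 2) ≤ Real.sinh (r / 2) :=
    Real.sinh_le_sinh.2 (by linarith)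
  obtain ⟨s, hsdef⟩ : ∃ s, s = Real.sinh (r / 2) := ⟨_, rfl⟩
  rw [← hsdef] at hs ⊢
  have hs1 : 0 ≤ s := le_trans hs0 hs
  obtain ⟨q, hq⟩ : ∃ q, q = √(x.1 0 * y.1 0) := ⟨_, rfl⟩
  have hq0 : 0 ≤ q := by rw [hq]; exact Real.sqrt_nonneg _
  have hq2 : q ^ 2 = x.1 0 * y.1 0 := by
    rw [hq, Real.sq_sqrt (mul_pos hx hy0).le]
  rw [← hq] at hd
  have hD : dist x.1 y.1 ≤ 2 * s * q := by
    rw [hd]
    exact mul_le_mul_of_nonneg_right (by linarith) hq0
  have hD0 : 0 ≤ dist x.1 y.1 := dist_nonneg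
  have hc : |x.1 0 - y.1 0| ≤ dist x.1 y.1 := by
    rw [EuclideanSpace.dist_eq]
    have h1 : (dist (x.1 0) (y.1 0)) ^ 2 ≤ ∑ i, dist (x.1 i) (y.1 i) ^ 2 :=
      Finset.single_le_sum (f := fun i => dist (x.1 i) (y.1 i) ^ 2) (fun i _ => sq_nonneg _)
        (Finset.mem_univ 0)
    rw [Real.dist_eq] at h1
    exact Real.le_sqrt_of_sq_le h1
  rw [abs_le] at hc
  -- AM GM
  have ham1 : 2 * s * q ≤ 2 * s ^ 2 * x.1 0 + y.1 0 / 2 := by
    have h2 : (2 * s * q) ^ 2 ≤ (2 * s ^ 2 * x.1 0 + y.1 0 / 2) ^ 2 := by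
      rw [mul_pow, hq2]
      nlinarith [sq_nonneg (2 * s ^ 2 * x.1 0 - y.1 0 / 2)]
    exact le_trans (le_abs_self _) (abs_le_of_sq_le_sq h2 (by positivity))
  have ham2 : 2 * s * q ≤ 2 * s ^ 2 * y.1 0 + x.1 0 / 2 := by
    have h2 : (2 * s * q) ^ 2 ≤ (2 * s ^ 2 * y.1 0 + x.1 0 / 2) ^ 2 := by
      rw [mul_pow, hq2]
      nlinarith [sq_nonneg (2 * s ^ 2 * y.1 0 - x.1 0 / 2)]
    exact le_trans (le_abs_self _) (abs_le_of_sq_le_sq h2 (by positivity))
  constructor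
  · rw [div_le_iff₀ (by positivity)]
    nlinarith
  · rw [dist_comm]
    nlinarith

theorem nice_finite {n : ℕ} (x : HSpace n) (r : ℝ) : hvol 1 n {y | hdist 1 x y ≤ r} < ∞ := by
  obtain ⟨δ, hδ, R, h⟩ := nice_ball_incl x r
  rw [homog_hvol_apply 1 n _ (measurableSet_le (nice_meas_dist x) measurable_const)]
  have h1 : ∀ z ∈ homogI {y : HSpace n | hdist 1 x y ≤ r},
      homogF 1 n z ≤ ENNReal.ofReal ((δ ^ (n + 1))⁻¹) := by
    rintro z ⟨hz, hzr⟩
    have h2 := (h ⟨z, hz⟩ hzr).1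
    unfold homogF
    rw [Real.sqrt_one, one_mul]
    refine ENNReal.ofReal_le_ofReal ?_
    have h3 : δ ^ (n + 1) ≤ z 0 ^ (n + 1) := pow_le_pow_left₀ hδ.le h2 _
    exact inv_anti₀ (by positivity) h3
  calc ∫⁻ z in homogI {y : HSpace n | hdist 1 x y ≤ r}, homogF 1 n z
      ≤ ∫⁻ _z in homogI {y : HSpace n | hdist 1 x y ≤ r}, ENNReal.ofReal ((δ ^ (n + 1))⁻¹) :=
        setLIntegral_mono' (homogI_meas n _
          (measurableSet_le (nice_meas_dist x) measurable_const)) h1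
    _ = ENNReal.ofReal ((δ ^ (n + 1))⁻¹) * volume (homogI {y : HSpace n | hdist 1 x y ≤ r}) := by
        rw [setLIntegral_const]
    _ ≤ ENNReal.ofReal ((δ ^ (n + 1))⁻¹) * volume (closedBall x.1 R) := by
        gcongr
        rintro z ⟨hz, hzr⟩
        exact (h ⟨z, hz⟩ hzr).2
    _ < ∞ := ENNReal.mul_lt_top ENNReal.ofReal_lt_top measure_closedBall_lt_top

theorem nice_sphere {n : ℕ} (x : HSpace n) (l : ℝ) : hvol 1 n {y | hdist 1 x y = l} = 0 := by
  rw [homog_hvol_apply 1 n _ (measurableSet_eq_fun (nice_meas_dist x) measurable_const)]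
  have hx : 0 < x.1 0 := x.2
  obtain ⟨s, hs⟩ : ∃ s, s = Real.sinh (l / 2) := ⟨_, rfl⟩
  have h1 : homogI {y : HSpace n | hdist 1 x y = l} ⊆
      sphere (x.1 + EuclideanSpace.single 0 (2 * s ^ 2 * x.1 0))
        (√(4 * s ^ 2 * (x.1 0) ^ 2 * (1 + s ^ 2))) := by
    rintro z ⟨hz, hzl⟩
    have hd := nice_sinh x ⟨z, hz⟩
    rw [show hdist 1 x ⟨z, hz⟩ = l from hzl, ← hs] at hd
    change dist x.1 z = 2 * s * √(x.1 0 * z 0) at hd
    have hd2 : ‖z - x.1‖ ^ 2 = 4 * s ^ 2 * (x.1 0 * z 0) := by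
      rw [← dist_eq_norm, dist_comm, hd, mul_pow, Real.sq_sqrt (mul_pos hx hz).le]
      ring
    rw [mem_sphere, dist_eq_norm]
    have h2 : ‖z - (x.1 + EuclideanSpace.single 0 (2 * s ^ 2 * x.1 0))‖ ^ 2 =
        4 * s ^ 2 * (x.1 0) ^ 2 * (1 + s ^ 2) := by
      rw [← sub_sub, norm_sub_sq_real, hd2, EuclideanSpace.inner_single_right,
        EuclideanSpace.norm_single]
      simp only [PiLp.sub_apply, Real.norm_eq_abs, sq_abs]
      simp
      ring
    rw [← h2, Real.sqrt_sq (norm_nonneg _)]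
  have h2 : volume (homogI {y : HSpace n | hdist 1 x y = l}) = 0 :=
    measure_mono_null h1 (Measure.addHaar_sphere volume _ _)
  rw [Measure.restrict_eq_zero.2 h2, lintegral_zero_measure]

theorem nice_annuli {n : ℕ} (x : HSpace n) (L : ℝ) (η : ℝ≥0∞) (hη : 0 < η) :
    ∃ ε > 0, ∀ l : ℝ, l ≤ L →
      hvol 1 n {y | l ≤ hdist 1 x y ∧ hdist 1 x y ≤ l + ε} ≤ η := by
  have hm := nice_meas_dist x
  -- local version
  have hloc : ∀ i : ℝ, ∃ δ > 0, hvol 1 n {y | dist (hdist 1 x y) i ≤ δ} ≤ η := by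
    intro i
    have hfin : ∃ R > 0, (Measure.map (fun y : HSpace n => hdist 1 x y) (hvol 1 n))
        (cthickening R {i}) ≠ ∞ := by
      refine ⟨1, one_pos, ?_⟩
      rw [cthickening_singleton _ zero_le_one, Measure.map_apply hm measurableSet_closedBall]
      refine ne_top_of_le_ne_top (nice_finite x (i + 1)).ne (measure_mono ?_)
      intro y hy
      have : dist (hdist 1 x y) i ≤ 1 := hy
      rw [Real.dist_eq, abs_le] at this
      change hdist 1 x y ≤ i + 1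
      linarith [this.2]
    have ht := tendsto_measure_cthickening hfin
    rw [closure_singleton, Measure.map_apply hm (measurableSet_singleton i)] at ht
    have h0 : hvol 1 n ((fun y : HSpace n => hdist 1 x y) ⁻¹' {i}) = 0 := nice_sphere x i
    rw [h0] at ht
    have h1 := (ht.eventually (gt_mem_nhds hη)).filter_mono
      (nhdsWithin_le_nhds (s := Set.Ioi (0 : ℝ)))
    obtain ⟨δ, hδ1, hδ2⟩ := (h1.and self_mem_nhdsWithin).exists
    refine ⟨δ, hδ2, ?_⟩
    rw [cthickening_singleton _ (le_of_lt hδ2), Measure.map_apply hm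
      measurableSet_closedBall] at hδ1
    exact hδ1.le
  choose δ hδ0 hδ using hloc
  obtain ⟨ε, hε, hcov⟩ := lebesgue_number_lemma_of_metric (s := Icc (-1 : ℝ) (max L 0))
    (c := fun i : ℝ => ball i (δ i)) isCompact_Icc (fun i => isOpen_ball)
    (fun i hi => Set.mem_iUnion.2 ⟨i, mem_ball_self (hδ0 i)⟩)
  refine ⟨min (ε / 2) 1, by positivity, ?_⟩
  intro l hl
  by_cases hneg : l < -1
  · have : {y : HSpace n | l ≤ hdist 1 x y ∧ hdist 1 x y ≤ l + min (ε / 2) 1} = ∅ := by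
      ext y
      simp only [Set.mem_ofPred_eq, Set.mem_empty_iff_false, iff_false, not_and, not_le]
      intro _
      have h1 := nice_dist_nonneg x y
      have h2 : min (ε / 2) 1 ≤ 1 := min_le_right _ _
      linarith
    rw [this, measure_empty]
    exact bot_le
  · have hmem : l ∈ Icc (-1 : ℝ) (max L 0) := ⟨not_lt.1 hneg, le_trans hl (le_max_left _ _)⟩
    obtain ⟨i, hi⟩ := hcov l hmem
    refine le_trans (measure_mono ?_) (hδ i)
    rintro y ⟨hy1, hy2⟩
    have h3 : hdist 1 x y ∈ ball l ε := by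
      rw [mem_ball, Real.dist_eq, abs_lt]
      have h2 : min (ε / 2) 1 ≤ ε / 2 := min_le_left _ _
      constructor <;> linarith
    exact (mem_ball.1 (hi h3)).le

/-- HYP (c): balls have finite volume and annuli are small (for the intensity hvol κ) -/
theorem hyp_nice_proof (n : ℕ) (κ : ℝ) (hκ : 0 < κ) :
    (∀ (x : HSpace n) (r : ℝ), hvol κ n {y | hdist 1 x y ≤ r} < ∞) ∧
    ∀ L η : ℝ, 0 < η → ∃ ε > 0, ∀ (x : HSpace n) (l : ℝ), l ≤ L →
      hvol κ n {y | l ≤ hdist 1 x y ∧ hdist 1 x y ≤ l + ε} ≤ ENNReal.ofReal η := by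
  have hκ' : 0 < √κ := Real.sqrt_pos.2 hκ
  constructor
  · intro x r
    rw [nice_scale κ n _ (measurableSet_le (nice_meas_dist x) measurable_const)]
    exact ENNReal.mul_lt_top ENNReal.ofReal_lt_top (nice_finite x r)
  · intro L η hη
    obtain ⟨o⟩ : Nonempty (HSpace n) := ⟨⟨EuclideanSpace.single 0 1, by simp⟩⟩
    obtain ⟨ε, hε, h⟩ := nice_annuli o L (ENNReal.ofReal (η * √κ ^ (n + 1)))
      (ENNReal.ofReal_pos.2 (by positivity))
    refine ⟨ε, hε, ?_⟩
    intro x l hl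
    have hm : ∀ x : HSpace n, MeasurableSet {y : HSpace n | l ≤ hdist 1 x y ∧
        hdist 1 x y ≤ l + ε} := fun x =>
      (measurableSet_le measurable_const (nice_meas_dist x)).inter
        (measurableSet_le (nice_meas_dist x) measurable_const)
    rw [nice_scale κ n _ (hm x)]
    obtain ⟨g, hg, hiso, hmp⟩ := hyp_homog_proof n o x
    have e1 : {y : HSpace n | l ≤ hdist 1 o y ∧ hdist 1 o y ≤ l + ε} =
        g ⁻¹' {y : HSpace n | l ≤ hdist 1 x y ∧ hdist 1 x y ≤ l + ε} := by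
      ext y
      change (l ≤ hdist 1 o y ∧ hdist 1 o y ≤ l + ε) ↔
        (l ≤ hdist 1 x (g y) ∧ hdist 1 x (g y) ≤ l + ε)
      rw [← hg, hiso]
    have e2 := hmp.measure_preimage (hm x).nullMeasurableSet
    rw [← e1] at e2
    rw [← e2]
    refine le_trans (mul_le_mul_right (h l hl) _) ?_
    rw [← ENNReal.ofReal_mul (by positivity)]
    refine ENNReal.ofReal_le_ofReal (le_of_eq ?_)
    field_simp

end Pool.Agent.BB
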