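import Pool.Agent.Lib_helper34.BB.Defs

/-! Block RF: residual finiteness of free groups, in one finite quotient. -/

namespace Pool.Agent.BB

open FreeGroup

/-- the ball -/
def rfBall (β : Type) (N : ℕ) : Set (FreeGroup β) := FreeGroup.mk '' {L | L.length ≤ N}

theorem rf_ball_finite (β : Type) [Finite β] (N : ℕ) : (rfBall β N).Finite :=
  (List.finite_length_le (β × Bool) N).image _

theorem rf_mk_cons_true {β : Type} (a : β) (L : List (β × Bool)) :
    FreeGroup.mk ((a, true) :: L) = FreeGroup.of a * FreeGroup.mk L := by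
  rw [FreeGroup.of, FreeGroup.mul_mk]
  rfl

theorem rf_mk_cons_false {β : Type} (a : β) (L : List (β × Bool)) :
    FreeGroup.mk ((a, false) :: L) = (FreeGroup.of a)⁻¹ * FreeGroup.mk L := by
  rw [FreeGroup.of, FreeGroup.inv_mk, FreeGroup.mul_mk]
  rfl

open Classical in
/-- partial left multiplication -/
noncomputable def rfE {β : Type} (N : ℕ) (a : β) :
    {g : rfBall β N // FreeGroup.of a * g.1 ∈ rfBall β N} ≃
    {g : rfBall β N // (FreeGroup.of a)⁻¹ * g.1 ∈ rfBall β N} where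
  toFun g := ⟨⟨FreeGroup.of a * g.1.1, g.2⟩, by
    change (FreeGroup.of a)⁻¹ * (FreeGroup.of a * g.1.1) ∈ rfBall β N
    rw [inv_mul_cancel_left]; exact g.1.2⟩
  invFun g := ⟨⟨(FreeGroup.of a)⁻¹ * g.1.1, g.2⟩, by
    change FreeGroup.of a * ((FreeGroup.of a)⁻¹ * g.1.1) ∈ rfBall β N
    rw [mul_inv_cancel_left]; exact g.1.2⟩
  left_inv g := by
    apply Subtype.ext
    apply Subtype.ext
    change (FreeGroup.of a)⁻¹ * (FreeGroup.of a * g.1.1) = g.1.1
    rw [inv_mul_cancel_left]
  right_inv g := by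
    apply Subtype.ext
    apply Subtype.ext
    change FreeGroup.of a * ((FreeGroup.of a)⁻¹ * g.1.1) = g.1.1
    rw [mul_inv_cancel_left]

theorem rf_proof {β : Type} [Finite β] (S : Set (FreeGroup β)) (hS : S.Finite) :
    ∃ (Q : Type) (_ : Group Q) (_ : Fintype Q) (ψ : FreeGroup β →* Q), S.InjOn ψ := by
  classical
  obtain ⟨N, hN⟩ : ∃ N : ℕ, ∀ g ∈ S, g.toWord.length ≤ N := by
    obtain ⟨N, hN⟩ := (hS.image (fun g : FreeGroup β => g.toWord.length)).bddAbove
    exact ⟨N, fun g hg => hN ⟨g, hg, rfl⟩⟩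
  have : Finite (rfBall β N) := (rf_ball_finite β N)
  have : Fintype (rfBall β N) := Fintype.ofFinite _
  let σ : β → Equiv.Perm (rfBall β N) := fun a => (rfE N a).extendSubtype
  have hσ : ∀ (a : β) (g : rfBall β N), FreeGroup.of a * g.1 ∈ rfBall β N →
      (σ a g).1 = FreeGroup.of a * g.1 := by
    intro a g hg
    have e2 := (rfE N a).extendSubtype_apply_of_mem g hg
    change ((rfE N a).extendSubtype g).1 = _
    rw [e2]
    rfl
  have hσ' : ∀ (a : β) (g : rfBall β N), (FreeGroup.of a)⁻¹ * g.1 ∈ rfBall β N →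
      ((σ a)⁻¹ g).1 = (FreeGroup.of a)⁻¹ * g.1 := by
    intro a g hg
    have e1 : (σ a) ⟨(FreeGroup.of a)⁻¹ * g.1, hg⟩ = g := by
      apply Subtype.ext
      rw [hσ a ⟨(FreeGroup.of a)⁻¹ * g.1, hg⟩ (by rw [mul_inv_cancel_left]; exact g.2),
        mul_inv_cancel_left]
    have e2 : (σ a)⁻¹ g = ⟨(FreeGroup.of a)⁻¹ * g.1, hg⟩ := by
      rw [Equiv.Perm.inv_eq_iff_eq]
      exact e1.symm
    rw [e2]
  refine ⟨Equiv.Perm (rfBall β N), inferInstance, inferInstance, FreeGroup.lift σ, ?_⟩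
  have h1 : (1 : FreeGroup β) ∈ rfBall β N := ⟨[], Nat.zero_le N, rfl⟩
  have key : ∀ L : List (β × Bool), L.length ≤ N →
      (FreeGroup.lift σ (FreeGroup.mk L) ⟨1, h1⟩).1 = FreeGroup.mk L := by
    intro L
    induction L with
    | nil =>
      intro hL
      have e : FreeGroup.lift σ (FreeGroup.mk ([] : List (β × Bool))) = 1 :=
        MonoidHom.map_one (FreeGroup.lift σ)
      rw [e]
      rfl
    | cons x L ih =>
      intro hL
      have hL' : L.length ≤ N := by
        rw [List.length_cons] at hL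
        omega
      obtain ⟨a, b⟩ := x
      cases b with
      | true =>
        have e1 : FreeGroup.lift σ (FreeGroup.mk ((a, true) :: L)) ⟨1, h1⟩ =
            σ a (FreeGroup.lift σ (FreeGroup.mk L) ⟨1, h1⟩) := by
          rw [rf_mk_cons_true, MonoidHom.map_mul, FreeGroup.lift_apply_of]
          rfl
        have hm : FreeGroup.of a * (FreeGroup.lift σ (FreeGroup.mk L) ⟨1, h1⟩).1 ∈
            rfBall β N := by
          rw [ih hL']
          exact ⟨(a, true) :: L, hL, rf_mk_cons_true a L⟩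
        rw [e1, hσ a _ hm, ih hL', rf_mk_cons_true]
      | false =>
        have e1 : FreeGroup.lift σ (FreeGroup.mk ((a, false) :: L)) ⟨1, h1⟩ =
            (σ a)⁻¹ (FreeGroup.lift σ (FreeGroup.mk L) ⟨1, h1⟩) := by
          rw [rf_mk_cons_false, MonoidHom.map_mul, MonoidHom.map_inv, FreeGroup.lift_apply_of]
          rfl
        have hm : (FreeGroup.of a)⁻¹ * (FreeGroup.lift σ (FreeGroup.mk L) ⟨1, h1⟩).1 ∈
            rfBall β N := by
          rw [ih hL']
          exact ⟨(a, false) :: L, hL, rf_mk_cons_false a L⟩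
        rw [e1, hσ' a _ hm, ih hL', rf_mk_cons_false]
  intro g hg g' hg' h
  have h2 := key g.toWord (hN g hg)
  have h3 := key g'.toWord (hN g' hg')
  rw [FreeGroup.mk_toWord] at h2 h3
  rw [← h2, ← h3, h]

end Pool.Agent.BB
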